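import Pool.Agent.Helper35.HSF.StC

/-!
# Project HSF (MP_925021_gt), module FZP: scalar maximum principle, first zero
-/

set_option autoImplicit false

namespace Helper80.HSF

open Helper35.HSF Helper35.MS Helper35.PI Helper35.PI2 Helper32.CL
open scoped ContDiff Manifold Topology ENNReal BigOperators
open MeasureTheory Set Filter

theorem hFZP (hSMR : StSMR) (hGCH : StGCH) (hMP : StMP) (hC1 : StC1) : StFZP := by
  intro n N M _ _ _ _ J F hF u t₁ t₂ hu hIcc hinit hstrict q t ht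
  by_contra hneg
  push Not at hneg
  have hcont : ContinuousOn (fun z : M × ℝ => u z.1 z.2) (univ ×ˢ J) :=
    (hSMR n N M J F hF.toIsImmJ u hu).2.1
  have hsub : (univ ×ˢ Icc t₁ t : Set (M × ℝ)) ⊆ univ ×ˢ J := by
    intro z hz
    exact ⟨hz.1, hIcc ⟨hz.2.1, hz.2.2.trans ht.2⟩⟩
  have hc1 : ContinuousOn (fun z : M × ℝ => u z.1 z.2) (univ ×ˢ Icc t₁ t) := hcont.mono hsub
  have hcl : IsClosed ((univ ×ˢ Icc t₁ t : Set (M × ℝ)) ∩
      (fun z : M × ℝ => u z.1 z.2) ⁻¹' (Ici 0)) :=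
    hc1.preimage_isClosed_of_isClosed (isClosed_univ.prod isClosed_Icc) isClosed_Ici
  have hcp : IsCompact ((univ ×ˢ Icc t₁ t : Set (M × ℝ)) ∩
      (fun z : M × ℝ => u z.1 z.2) ⁻¹' (Ici 0)) :=
    (isCompact_univ.prod isCompact_Icc).of_isClosed_subset hcl inter_subset_left
  obtain ⟨z₀, hz₀, hmin⟩ := hcp.exists_isMinOn ⟨(q, t), ⟨⟨mem_univ _, ht.1, le_rfl⟩, hneg⟩⟩
    (continuous_snd.continuousOn)
  obtain ⟨p₀, t₀⟩ := z₀
  obtain ⟨⟨_, h0t, htt⟩, hge⟩ := hz₀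
  simp only [mem_preimage, mem_Ici] at hge
  simp only at h0t htt
  have ht₀J : t₀ ∈ J := hIcc ⟨h0t, htt.trans ht.2⟩
  -- before `t₀` the function is negative
  have hbef : ∀ (p : M) (s : ℝ), t₁ ≤ s → s < t₀ → u p s < 0 := by
    intro p s hs hst
    by_contra hc
    push Not at hc
    have := hmin (show (p, s) ∈ _ from ⟨⟨mem_univ _, hs, by linarith⟩, hc⟩)
    simp only [mem_ofPred_eq] at this
    linarith
  have ht0 : t₁ < t₀ := by
    rcases h0t.eq_or_lt with h | h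
    · rw [← h] at hge
      exact absurd hge (not_le.2 (hinit p₀))
    · exact h
  -- at `t₀` it is nonpositive
  have hat : ∀ p : M, u p t₀ ≤ 0 := by
    intro p
    have hcw : ContinuousWithinAt (fun z : M × ℝ => u z.1 z.2) (univ ×ˢ Icc t₁ t) (p, t₀) :=
      hc1 (p, t₀) ⟨mem_univ _, h0t, htt⟩
    have hmap : Tendsto (fun s : ℝ => (p, s)) (𝓝[<] t₀) (𝓝[univ ×ˢ Icc t₁ t] (p, t₀)) := by
      apply tendsto_nhdsWithin_iff.2
      refine ⟨?_, ?_⟩
      · exact (Continuous.prodMk_right p).tendsto t₀ |>.mono_left nhdsWithin_le_nhds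
      · have h1 : ∀ᶠ s in 𝓝[<] t₀, t₁ < s := nhdsWithin_le_nhds (lt_mem_nhds ht0)
        filter_upwards [h1, self_mem_nhdsWithin] with s hs hs'
        exact ⟨mem_univ _, hs.le, (le_of_lt hs').trans htt⟩
    have hlim := hcw.tendsto.comp hmap
    apply le_of_tendsto hlim
    have h1 : ∀ᶠ s in 𝓝[<] t₀, t₁ < s := nhdsWithin_le_nhds (lt_mem_nhds ht0)
    filter_upwards [h1, self_mem_nhdsWithin] with s hs hs'
    exact (hbef p s hs.le hs').le
  have heq : u p₀ t₀ = 0 := le_antisymm (hat p₀) hge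
  obtain ⟨L, hL⟩ := hC1 n N _ (hF.imm p₀ t₀ ht₀J)
  obtain ⟨U, θ, hG, hφ, -⟩ := hGCH n N M J F hF p₀ t₀ ht₀J L hL
  obtain ⟨hsm, -, hjh, hgd⟩ := hφ u hu
  have hsm2 : ContDiffAt ℝ 2 (fun z : EE n × ℝ => u (θ z) z.2) (0, t₀) :=
    by exact_mod_cast contDiffAt_infty.1 hsm 2
  obtain ⟨h1, h2⟩ := hMP n 0 t₀ (fun z : EE n × ℝ => u (θ z) z.2) hsm2 (by
    have h1 : ∀ᶠ z : EE n × ℝ in 𝓝 ((0 : EE n), t₀), t₁ < z.2 :=
      (continuous_snd.tendsto ((0 : EE n), t₀)).eventually (lt_mem_nhds ht0)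
    filter_upwards [h1] with z hz hz'
    simp only [hG.pt, heq]
    rcases hz'.lt_or_eq with h | h
    · exact (hbef (θ z) z.2 hz.le h).le
    · rw [h]
      exact hat (θ z))
  have hg0 : gdM n F t₀ (fun q => u q t₀) p₀ = 0 := by
    rw [hgd]
    exact Finset.sum_eq_zero fun k _ => by rw [h1 k, zero_smul]
  have h3 := hstrict p₀ t₀ ⟨ht0, htt.trans ht.2⟩ heq hg0 hat
  rw [hjh] at h2
  linarith

end Helper80.HSF
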