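import Pool.Agent.Helper35.HSF.StG

/-!
# Project HSF (MP_925021_gt), module SHP: all principal curvatures
-/

set_option autoImplicit false

namespace Helper80.HSF

open Helper35.HSF Helper35.MS Helper35.PI Helper35.PI2 Helper32.CL
open scoped ContDiff Manifold Topology ENNReal BigOperators
open MeasureTheory Set Filter

theorem hSHP (hFHC : StFHC) (hHNB : StHNB) (_hEVF : StEVF) (hFBS : StFBS) : StSHP := by
  intro n hn2 M _ _ _ _ _ _ T F ν ts ε x C α hX η hη
  have hn1 : 1 ≤ n := by omega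
  have hnR : (0 : ℝ) < n := by exact_mod_cast (by omega : 0 < n)
  have hC : 0 < C := lt_of_lt_of_le one_pos hX.C1
  obtain ⟨t₂, ht₂, hH⟩ := hFHC n hn2 M T F ν ts ε x C α hX (n * η / 4) (by positivity)
  set κ : ℝ := (η / 2) ^ 2 / (2 * n * C) with hκ
  have hκ0 : 0 < κ := by positivity
  set δ : ℝ := κ ^ (1 / α) with hδ
  have hδ0 : 0 < δ := Real.rpow_pos_of_pos hκ0 _
  have hδα : δ ^ α = κ := by
    rw [hδ, ← Real.rpow_mul hκ0.le, one_div, inv_mul_cancel₀ hX.α0.ne', Real.rpow_one]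
  refine ⟨max t₂ (T - δ), ⟨le_trans ht₂.1 (le_max_left _ _), max_lt ht₂.2 (by linarith)⟩, ?_⟩
  intro t ht q c hc
  have ht2 : t ∈ Ico t₂ T := ⟨le_trans (le_max_left _ _) ht.1, ht.2⟩
  have hts : t ∈ Ico ts T := ⟨ht₂.1.trans ht2.1, ht.2⟩
  have htδ : T - δ ≤ t := le_trans (le_max_right _ _) ht.1
  have hs : 0 < T - t := by linarith [ht.2]
  have hsδ : T - t ≤ δ := by linarith
  have htJ : t ∈ Ioo 0 T := ⟨lt_of_lt_of_le hX.d.ts0.1 hts.1, ht.2⟩
  obtain ⟨hHε, -⟩ := hFBS n hn1 M T F ν ts ε hX.d t hts q q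
  have hHpos : 0 < Hs n F ν q t := lt_of_lt_of_le (mul_pos hnR hX.d.ε0) hHε
  obtain ⟨-, -, hb, -⟩ := hHNB n hn1 M (Ioo 0 T) F ν hX.d.fl q t htJ
  obtain ⟨-, hb2⟩ := hb c hc
  have hth := hX.th t hts q
  have hHt := hH t ht2 q
  set s : ℝ := T - t with hsdef
  set H : ℝ := Hs n F ν q t with hHdef
  set h : ℝ := hn F ν q t c with hhdef
  set σ : ℝ := Real.sqrt (2 * n * s) with hσ
  have hσ2 : σ ^ 2 = 2 * n * s := Real.sq_sqrt (by positivity)
  have hσ0 : 0 < σ := Real.sqrt_pos.2 (by positivity)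
  -- first part
  have hA : |σ * (H / n) - 1| ≤ η / 2 := by
    have h1 : (σ * (H / n)) ^ 2 - 1 = (2 / n) * (s * H ^ 2 - n / 2) := by
      rw [mul_pow, hσ2]
      field_simp
    have h2 : |(σ * (H / n)) ^ 2 - 1| ≤ η / 2 := by
      rw [h1, abs_mul, abs_of_pos (by positivity : (0 : ℝ) < 2 / n)]
      calc (2 / n : ℝ) * |s * H ^ 2 - n / 2| ≤ (2 / n) * (n * η / 4) :=
            mul_le_mul_of_nonneg_left hHt (by positivity)
        _ = η / 2 := by field_simp; ring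
    have h3 : 0 < σ * (H / n) := by positivity
    have h4 : (σ * (H / n)) ^ 2 - 1 = (σ * (H / n) - 1) * (σ * (H / n) + 1) := by ring
    rw [h4, abs_mul, abs_of_pos (by linarith : 0 < σ * (H / n) + 1)] at h2
    have h5 : |σ * (H / n) - 1| * 1 ≤ |σ * (H / n) - 1| * (σ * (H / n) + 1) :=
      mul_le_mul_of_nonneg_left (by linarith) (abs_nonneg _)
    linarith
  -- second part
  have hB : |σ * (h - H / n)| ≤ η / 2 := by
    apply abs_le_of_sq_le_sq _ (by positivity)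
    have h1 : (σ * (h - H / n)) ^ 2 ≤ 2 * n * s * (C * s ^ (α - 1)) := by
      rw [mul_pow, hσ2]
      exact mul_le_mul_of_nonneg_left (hb2.trans hth) (by positivity)
    have h2 : s * s ^ (α - 1) = s ^ α := by
      rw [← Real.rpow_one_add' hs.le (by linarith [hX.α0] : (1 : ℝ) + (α - 1) ≠ 0)]
      congr 1
      ring
    have h3 : s ^ α ≤ κ := by
      rw [← hδα]
      exact Real.rpow_le_rpow hs.le hsδ hX.α0.le
    calc (σ * (h - H / n)) ^ 2 ≤ 2 * n * s * (C * s ^ (α - 1)) := h1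
      _ = 2 * n * C * s ^ α := by rw [← h2]; ring
      _ ≤ 2 * n * C * κ := mul_le_mul_of_nonneg_left h3 (by positivity)
      _ = (η / 2) ^ 2 := by rw [hκ]; field_simp
  have hsplit : σ * h - 1 = σ * (h - H / n) + (σ * (H / n) - 1) := by ring
  rw [hsplit]
  calc |σ * (h - H / n) + (σ * (H / n) - 1)| ≤ |σ * (h - H / n)| + |σ * (H / n) - 1| := abs_add_le _ _
    _ ≤ η / 2 + η / 2 := add_le_add hB hA
    _ = η := by ring

end Helper80.HSF
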