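import Pool.Agent.Helper35.HSF.StB

/-!
# Project HSF (MP_925021_gt), module TAL: the algebra of the touching point
-/

set_option autoImplicit false

namespace Helper80.HSF

open Helper35.HSF Helper35.MS Helper35.PI Helper35.PI2 Helper32.CL
open scoped BigOperators

private theorem core (n k k' x P H h₂ jP jQ A : ℝ) (hk : 0 < k) (hk1 : k ≤ 1)
    (hk' : 0 < k') (hx : 0 < x) (hP : 0 < P) (hA : 0 ≤ A) (hH : H ≤ n * P)
    (hh : h₂ ≤ (P + (1 - k - k * x) * P) * H - n * (P * ((1 - k - k * x) * P)))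
    (hj1 : jP ≤ h₂ * P + 2 * H * (x * P ^ 2) - 2 / (P - (1 - k - k * x) * P) * A)
    (hj2 : h₂ * ((1 - k - k * x) * P) + 2 * H * (x * P ^ 2)
      + 2 / (P - (1 - k - k * x) * P) * (((1 - k) + k * x) ^ 2 * A) ≤ jQ) :
    (2 * (1 - k) * P - (1 - k - k * x) * P) * jP - P * jQ - 2 * (1 - k) * A
      + 2 * (((1 - k) + k * x) * A) - k' * (P ^ 2 + x * P ^ 2) - 2 * n * k * (x * P ^ 2) ^ 2 < 0 := by
  have hD : P - (1 - k - k * x) * P = k * P * (1 + x) := by ring
  have hD0 : 0 < P - (1 - k - k * x) * P := by rw [hD]; positivity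
  obtain ⟨y, hy⟩ : ∃ y : ℝ, y = 2 / (P - (1 - k - k * x) * P) := ⟨_, rfl⟩
  have hy0 : 0 < y := by rw [hy]; positivity
  have hy2 : y * (k * P * (1 + x)) = 2 := by
    rw [hy, ← hD]
    exact div_mul_cancel₀ 2 hD0.ne'
  rw [← hy] at hj1 hj2
  obtain ⟨g, hg⟩ : ∃ g : ℝ, g = (1 - k) + k * x := ⟨_, rfl⟩
  have hkx : 0 < k * x := mul_pos hk hx
  have hg0 : 0 < g := by rw [hg]; linarith
  rw [← hg] at hj2 ⊢
  have hPg : 2 * (1 - k) * P - (1 - k - k * x) * P = P * g := by rw [hg]; ring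
  rw [hPg]
  have h1 : P * g * jP ≤ P * g * (h₂ * P + 2 * H * (x * P ^ 2) - y * A) :=
    mul_le_mul_of_nonneg_left hj1 (by positivity)
  have h2 : P * (h₂ * ((1 - k - k * x) * P) + 2 * H * (x * P ^ 2) + y * (g ^ 2 * A)) ≤ P * jQ :=
    mul_le_mul_of_nonneg_left hj2 hP.le
  have h3 : 2 * (k * x) ≤ y * P * (g * (1 + g)) := by
    have h31 : k ^ 2 * x * (1 + x) ≤ g * (1 + g) := by
      have : g * (1 + g) - k ^ 2 * x * (1 + x) = (1 - k) * ((2 - k) + 3 * (k * x)) := by
        rw [hg]; ring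
      have h32 : 0 ≤ (1 - k) * ((2 - k) + 3 * (k * x)) :=
        mul_nonneg (by linarith) (by linarith)
      linarith
    have h33 : y * P * (k ^ 2 * x * (1 + x)) ≤ y * P * (g * (1 + g)) :=
      mul_le_mul_of_nonneg_left h31 (by positivity)
    have h34 : y * P * (k ^ 2 * x * (1 + x)) = 2 * (k * x) := by
      calc y * P * (k ^ 2 * x * (1 + x)) = y * (k * P * (1 + x)) * (k * x) := by ring
        _ = 2 * (k * x) := by rw [hy2]
    linarith
  have h3' : A * (2 * (k * x) - y * P * (g * (1 + g))) ≤ 0 :=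
    mul_nonpos_of_nonneg_of_nonpos hA (by linarith)
  have h4 : P * g * (h₂ * P + 2 * H * (x * P ^ 2))
      - P * (h₂ * ((1 - k - k * x) * P) + 2 * H * (x * P ^ 2)) - 2 * n * k * (x * P ^ 2) ^ 2
      ≤ 0 := by
    have h41 : P * g * (h₂ * P + 2 * H * (x * P ^ 2))
        - P * (h₂ * ((1 - k - k * x) * P) + 2 * H * (x * P ^ 2)) - 2 * n * k * (x * P ^ 2) ^ 2
        = 2 * k * x * P ^ 2 * (h₂ + H * (x * P - P) - n * (x * P ^ 2)) := by
      rw [hg]; ring
    have h42 : h₂ + H * (x * P - P) - n * (x * P ^ 2)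
        ≤ (H - n * P) * (((1 - k) * (1 + x)) * P) := by
      have : (P + (1 - k - k * x) * P) * H - n * (P * ((1 - k - k * x) * P))
          + H * (x * P - P) - n * (x * P ^ 2) = (H - n * P) * (((1 - k) * (1 + x)) * P) := by
        ring
      linarith
    have h43 : (H - n * P) * (((1 - k) * (1 + x)) * P) ≤ 0 :=
      mul_nonpos_of_nonpos_of_nonneg (by linarith)
        (mul_nonneg (mul_nonneg (by linarith) (by linarith)) hP.le)
    rw [h41]
    exact mul_nonpos_of_nonneg_of_nonpos (by positivity) (by linarith)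
  have h5 : 0 < k' * (P ^ 2 + x * P ^ 2) := by positivity
  have h6 : 2 * (g * A) = 2 * (1 - k) * A + 2 * (k * x) * A := by rw [hg]; ring
  have h7 : P * g * (h₂ * P + 2 * H * (x * P ^ 2) - y * A)
      - P * (h₂ * ((1 - k - k * x) * P) + 2 * H * (x * P ^ 2) + y * (g ^ 2 * A))
      = P * g * (h₂ * P + 2 * H * (x * P ^ 2))
        - P * (h₂ * ((1 - k - k * x) * P) + 2 * H * (x * P ^ 2))
        - A * (y * P * (g * (1 + g))) := by ring
  have h8 : A * (2 * (k * x) - y * P * (g * (1 + g)))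
      = 2 * (k * x) * A - A * (y * P * (g * (1 + g))) := by ring
  linarith

theorem hTAL : StTAL := by
  intro n k k' r P Q H h₂ jP jQ a b hk hk1 hk' hr hP hPQ hH hh hab hj1 hj2
  obtain ⟨x, hx⟩ : ∃ x : ℝ, x = r / P ^ 2 := ⟨_, rfl⟩
  have hx0 : 0 < x := by rw [hx]; positivity
  have hrx : r = x * P ^ 2 := by
    rw [hx]
    field_simp
  have hQ : Q = (1 - k - k * x) * P := by
    have h1 : P * Q = P * ((1 - k - k * x) * P) := by
      rw [hrx] at hPQ
      linarith
    exact mul_left_cancel₀ hP.ne' h1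
  have hb : ∀ i, b i = ((1 - k) + k * x) * a i := by
    intro i
    have h1 := hab i
    rw [hQ] at h1
    have h2 : P * b i = P * (((1 - k) + k * x) * a i) := by linarith
    exact mul_left_cancel₀ hP.ne' h2
  have hbb : ∑ i, b i ^ 2 = ((1 - k) + k * x) ^ 2 * ∑ i, a i ^ 2 := by
    rw [Finset.mul_sum]
    refine Finset.sum_congr rfl fun i _ => ?_
    rw [hb i]; ring
  have hab' : ∑ i, a i * b i = ((1 - k) + k * x) * ∑ i, a i ^ 2 := by
    rw [Finset.mul_sum]
    refine Finset.sum_congr rfl fun i _ => ?_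
    rw [hb i]; ring
  rw [hbb] at hj2
  rw [hab']
  subst hrx
  subst hQ
  refine ⟨?_, ?_⟩
  · have hD : P - (1 - k - k * x) * P = k * P * (1 + x) := by ring
    rw [hD]; positivity
  · exact core n k k' x P H h₂ jP jQ (∑ i, a i ^ 2) hk hk1 hk' hx0 hP
      (Finset.sum_nonneg fun i _ => sq_nonneg _) hH hh hj1 hj2

end Helper80.HSF
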